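import Mathlib

-- part Pool.Agent.P.MP_f027b3_co.Basic
section

set_option autoImplicit false
set_option linter.unusedSimpArgs false

namespace Pool.Agent.P.MP_f027b3_co

open SimpleGraph

/-- every cycle has two local maxima for the labelling `f` -/
def TwoMax {V : Type} (G : SimpleGraph V) (f : V → V → ℝ) : Prop :=
  ∀ (u : V) (p : G.Walk u u), p.IsCycle →
    ∃ i j : ℕ, i < p.length ∧ j < p.length ∧ i ≠ j ∧
      f (p.getVert ((i + 1) % p.length)) (p.getVert ((i + 1) % p.length + 1)) <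
        f (p.getVert i) (p.getVert (i + 1)) ∧
      f (p.getVert ((i + p.length - 1) % p.length))
          (p.getVert ((i + p.length - 1) % p.length + 1)) <
        f (p.getVert i) (p.getVert (i + 1)) ∧
      f (p.getVert ((j + 1) % p.length)) (p.getVert ((j + 1) % p.length + 1)) <
        f (p.getVert j) (p.getVert (j + 1)) ∧
      f (p.getVert ((j + p.length - 1) % p.length))
          (p.getVert ((j + p.length - 1) % p.length + 1)) <
        f (p.getVert j) (p.getVert (j + 1))

/-- the graph has a good edge labelling -/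
def Good {V : Type} (G : SimpleGraph V) : Prop :=
  ∃ f : V → V → ℝ, (∀ a b : V, f a b = f b a) ∧
    (∀ x y z w : V, G.Adj x y → G.Adj z w → f x y = f z w →
      (x = z ∧ y = w) ∨ (x = w ∧ y = z)) ∧ TwoMax G f

theorem Good.of_hom {V W : Type} {H : SimpleGraph V} {G : SimpleGraph W} (φ : H →g G)
    (hφ : Function.Injective φ) (h : Good G) : Good H := by
  obtain ⟨f, hs, hi, hc⟩ := h
  refine ⟨fun a b => f (φ a) (φ b), fun a b => hs _ _, ?_, ?_⟩
  · intro x y z w h1 h2 h3
    rcases hi _ _ _ _ (φ.map_adj h1) (φ.map_adj h2) h3 with ⟨a, b⟩ | ⟨a, b⟩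
    · exact Or.inl ⟨hφ a, hφ b⟩
    · exact Or.inr ⟨hφ a, hφ b⟩
  · intro u p hp
    have := hc (φ u) (p.map φ) ((Walk.isCycle_map_iff_of_injective hφ).2 hp)
    simpa only [Walk.length_map, Walk.getVert_map] using this

theorem four_cycle {V : Type} {G : SimpleGraph V} {f : V → V → ℝ} (hc : TwoMax G f)
    {a b c d : V} (h1 : G.Adj a b) (h2 : G.Adj b c) (h3 : G.Adj c d) (h4 : G.Adj d a)
    (hac : a ≠ c) (hbd : b ≠ d) :
    (f b c < f a b ∧ f d a < f c d) ∨ (f a b < f b c ∧ f c d < f d a) := by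
  have hab := h1.ne
  have hbc := h2.ne
  have hcd := h3.ne
  have hda := h4.ne
  have hp : (Walk.cons h1 (Walk.cons h2 (Walk.cons h3 (Walk.cons h4 Walk.nil)))).IsCycle := by
    simp [Walk.isCycle_def, Walk.isTrail_def, hab, hbc, hcd, hda, hac, hbd, hab.symm, hbc.symm,
      hcd.symm, hda.symm, hac.symm, hbd.symm]
  obtain ⟨i, j, hi, hj, hij, e1, e2, e3, e4⟩ := hc a _ hp
  simp only [Walk.length_cons, Walk.length_nil] at hi hj e1 e2 e3 e4
  interval_cases i <;> interval_cases j <;>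
    simp only [Nat.reduceAdd, Nat.reduceMod, Nat.reduceSub, Walk.getVert_cons_succ,
      Walk.getVert_zero, zero_add, ne_eq, not_true_eq_false] at hij e1 e2 e3 e4 <;>
    first
      | exact Or.inl ⟨by linarith, by linarith⟩
      | exact Or.inr ⟨by linarith, by linarith⟩

theorem five_cycle {V : Type} {G : SimpleGraph V} {f : V → V → ℝ} (hc : TwoMax G f)
    {a b c d e : V} (h1 : G.Adj a b) (h2 : G.Adj b c) (h3 : G.Adj c d) (h4 : G.Adj d e)
    (h5 : G.Adj e a) (hac : a ≠ c) (had : a ≠ d) (hbd : b ≠ d) (hbe : b ≠ e) (hce : c ≠ e)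
    (l1 : f a b < f b c) (l2 : f b c < f c d) (l3 : f e a < f d e) : False := by
  have hab := h1.ne
  have hbc := h2.ne
  have hcd := h3.ne
  have hde := h4.ne
  have hea := h5.ne
  have hp : (Walk.cons h1 (Walk.cons h2 (Walk.cons h3 (Walk.cons h4
      (Walk.cons h5 Walk.nil))))).IsCycle := by
    simp [Walk.isCycle_def, Walk.isTrail_def, hab, hbc, hcd, hde, hea, hac, had, hbd, hbe, hce,
      hab.symm, hbc.symm, hcd.symm, hde.symm, hea.symm, hac.symm, had.symm, hbd.symm, hbe.symm,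
      hce.symm]
  obtain ⟨i, j, hi, hj, hij, e1, e2, e3, e4⟩ := hc a _ hp
  simp only [Walk.length_cons, Walk.length_nil] at hi hj e1 e2 e3 e4
  interval_cases i <;> interval_cases j <;>
    simp only [Nat.reduceAdd, Nat.reduceMod, Nat.reduceSub, Walk.getVert_cons_succ,
      Walk.getVert_zero, zero_add, ne_eq, not_true_eq_false] at hij e1 e2 e3 e4 <;>
    linarith

/-- a cycle written as a periodic sequence of vertices -/
structure IsCyc {V : Type} (G : SimpleGraph V) (L : ℤ) (w : ℤ → V) : Prop where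
  three : 3 ≤ L
  adj : ∀ k, G.Adj (w k) (w (k + 1))
  per : ∀ k, w (k + L) = w k
  inj : ∀ k l, k < l → l < k + L → w k ≠ w l

theorem IsCyc.rev {V : Type} {G : SimpleGraph V} {L : ℤ} {w : ℤ → V} (h : IsCyc G L w) :
    IsCyc G L (fun k => w (-k)) where
  three := h.three
  adj := fun k => by
    have := (h.adj (-(k + 1))).symm
    rwa [show -(k + 1) + 1 = -k by ring] at this
  per := fun k => by
    have := h.per (-(k + L))
    rw [show -(k + L) + L = -k by ring] at this
    exact this.symm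
  inj := fun k l h1 h2 => (h.inj (-l) (-k) (by omega) (by omega)).symm

/-- a high-low-high-low pattern inside one period -/
def Pat {α : Type} [LT α] (L : ℤ) (x : ℤ → α) : Prop :=
  ∃ a b c d : ℤ, a < b ∧ b < c ∧ c < d ∧ d < a + L ∧ x b < x a ∧ x d < x a ∧ x b < x c ∧ x d < x c

theorem Pat.of_low {α : Type} [LT α] {L : ℤ} {x : ℤ → α} (hper : ∀ k, x (k + L) = x k)
    (a b c d : ℤ) (h1 : a < b) (h2 : b < c) (h3 : c < d) (h4 : d < a + L)
    (l1 : x a < x b) (l2 : x a < x d) (l3 : x c < x b) (l4 : x c < x d) : Pat L x :=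
  ⟨b, c, d, a + L, h2, h3, h4, by omega, l3, by rwa [hper], l4, by rwa [hper]⟩

theorem Pat.of_rev {α : Type} [LT α] {L : ℤ} {x : ℤ → α} (hper : ∀ k, x (k + L) = x k)
    (h : Pat L (fun k => x (-k - 1))) : Pat L x := by
  obtain ⟨a, b, c, d, h1, h2, h3, h4, l1, l2, l3, l4⟩ := h
  exact Pat.of_low hper (-d - 1) (-c - 1) (-b - 1) (-a - 1) (by omega) (by omega) (by omega)
    (by omega) l4 l2 l3 l1

theorem exists_locmax (x : ℤ → ℝ) (hne : ∀ k, x k ≠ x (k + 1)) (p m q : ℤ) (h1 : p < m)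
    (h2 : m < q) (l1 : x p < x m) (l2 : x q < x m) :
    ∃ i, p < i ∧ i < q ∧ x (i + 1) < x i ∧ x (i - 1) < x i := by
  obtain ⟨i, hi, hmax⟩ := Finset.exists_max_image (Finset.Icc p q) x
    ⟨m, Finset.mem_Icc.2 ⟨h1.le, h2.le⟩⟩
  rw [Finset.mem_Icc] at hi
  have hm := hmax m (Finset.mem_Icc.2 ⟨h1.le, h2.le⟩)
  have hp : i ≠ p := by rintro rfl; linarith
  have hq : i ≠ q := by rintro rfl; linarith
  refine ⟨i, by omega, by omega, ?_, ?_⟩
  · exact lt_of_le_of_ne (hmax _ (Finset.mem_Icc.2 ⟨by omega, by omega⟩)) (hne i).symm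
  · have := hne (i - 1)
    rw [sub_add_cancel] at this
    exact lt_of_le_of_ne (hmax _ (Finset.mem_Icc.2 ⟨by omega, by omega⟩)) this

theorem Pat.two_locmax {L : ℤ} {x : ℤ → ℝ} (hper : ∀ k, x (k + L) = x k)
    (hne : ∀ k, x k ≠ x (k + 1)) (h : Pat L x) :
    ∃ i j : ℤ, i < j ∧ j < i + L ∧ x (i + 1) < x i ∧ x (i - 1) < x i ∧
      x (j + 1) < x j ∧ x (j - 1) < x j := by
  obtain ⟨a, b, c, d, h1, h2, h3, h4, l1, l2, l3, l4⟩ := h
  have hd : x (d - L) = x d := by rw [← hper (d - L), sub_add_cancel]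
  obtain ⟨i, i1, i2, i3, i4⟩ := exists_locmax x hne (d - L) a b (by omega) h1 (by rwa [hd]) l1
  obtain ⟨j, j1, j2, j3, j4⟩ := exists_locmax x hne b c d h2 h3 l3 l4
  exact ⟨i, j, by omega, by omega, i3, i4, j3, j4⟩

/-- from periodic sequences to walks -/
theorem twoMax_of_cyc {V : Type} {G : SimpleGraph V} {f : V → V → ℝ}
    (h : ∀ (L : ℤ) (w : ℤ → V), IsCyc G L w →
      ∃ i j : ℤ, i < j ∧ j < i + L ∧
        f (w (i + 1)) (w (i + 1 + 1)) < f (w i) (w (i + 1)) ∧
        f (w (i - 1)) (w (i - 1 + 1)) < f (w i) (w (i + 1)) ∧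
        f (w (j + 1)) (w (j + 1 + 1)) < f (w j) (w (j + 1)) ∧
        f (w (j - 1)) (w (j - 1 + 1)) < f (w j) (w (j + 1))) : TwoMax G f := by
  intro u p hp
  have h3 : 3 ≤ p.length := hp.three_le_length
  set n := p.length with hn
  have hn0 : (0 : ℤ) < n := by omega
  let r : ℤ → ℕ := fun k => (k % (n : ℤ)).toNat
  have r_lt : ∀ k, r k < n := fun k => by
    have := Int.emod_lt_of_pos k hn0
    have := Int.emod_nonneg k hn0.ne'
    simp only [r]; omega
  have r_cast : ∀ k, ((r k : ℕ) : ℤ) = k % n := fun k => by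
    have := Int.emod_nonneg k hn0.ne'
    simp only [r]; omega
  have r_succ : ∀ k, r (k + 1) = (r k + 1) % n := fun k => by
    apply Nat.cast_injective (R := ℤ)
    push_cast
    rw [r_cast, r_cast, Int.emod_add_emod]
  have r_pred : ∀ k, r (k - 1) = (r k + n - 1) % n := fun k => by
    apply Nat.cast_injective (R := ℤ)
    rw [Int.natCast_mod, Nat.cast_sub (by omega)]
    push_cast
    rw [r_cast, r_cast, show k % n + n - 1 = k % n + (n - 1) by ring, Int.emod_add_emod,
      show k + ((n : ℤ) - 1) = (k - 1) + n by ring, Int.add_emod_right]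
  let w : ℤ → V := fun k => p.getVert (r k)
  have w_succ : ∀ k, w (k + 1) = p.getVert (r k + 1) := fun k => by
    simp only [w, r_succ]
    rcases Nat.lt_or_ge (r k + 1) n with hlt | hge
    · rw [Nat.mod_eq_of_lt hlt]
    · have : r k + 1 = n := by have := r_lt k; omega
      rw [this, Nat.mod_self, Walk.getVert_zero, hn, Walk.getVert_length]
  have hw : IsCyc G n w := by
    refine ⟨by omega, fun k => ?_, fun k => ?_, fun k l h1 h2 hkl => ?_⟩
    · rw [w_succ]; exact p.adj_getVert_succ (r_lt k)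
    · simp only [w, r, Int.add_emod_right]
    · have := hp.getVert_injOn' (show r k ≤ p.length - 1 by have := r_lt k; omega)
        (show r l ≤ p.length - 1 by have := r_lt l; omega) hkl
      have h4 : k % n = l % n := by rw [← r_cast, ← r_cast, this]
      have h5 : (n : ℤ) ∣ l - k := Int.ModEq.dvd h4
      have := Int.le_of_dvd (by omega) h5
      omega
  obtain ⟨i, j, h1, h2, e1, e2, e3, e4⟩ := h n w hw
  refine ⟨r i, r j, r_lt i, r_lt j, ?_, ?_, ?_, ?_, ?_⟩
  · intro hij
    exact hw.inj i j h1 h2 (by simp only [w, hij])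
  · rw [← r_succ, ← w_succ, ← w_succ]; exact e1
  · rw [← r_pred, ← w_succ, ← w_succ]; exact e2
  · rw [← r_succ, ← w_succ, ← w_succ]; exact e3
  · rw [← r_pred, ← w_succ, ← w_succ]; exact e4

/-- tie breaking -/
theorem exists_refine {V : Type} [Finite V] (g : V → V → ℕ) (hg : ∀ a b, g a b = g b a) :
    ∃ f : V → V → ℝ, (∀ a b, f a b = f b a) ∧
      (∀ x y z w, f x y = f z w → (x = z ∧ y = w) ∨ (x = w ∧ y = z)) ∧
      ∀ x y z w, g x y < g z w → f x y < f z w := by
  obtain ⟨m, ⟨e⟩⟩ := Finite.exists_equiv_fin (Sym2 V)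
  refine ⟨fun a b => ((g a b * m + (e s(a, b)).val : ℕ) : ℝ), ?_, ?_, ?_⟩
  · intro a b
    simp only [hg a b, Sym2.eq_swap (a := a)]
  · intro x y z w h
    have h' : g x y * m + (e s(x, y)).val = g z w * m + (e s(z, w)).val :=
      Nat.cast_injective (R := ℝ) h
    have l1 := (e s(x, y)).isLt
    have l2 := (e s(z, w)).isLt
    have h2 := congrArg (· % m) h'
    simp only [Nat.mul_add_mod_self_right, Nat.mod_eq_of_lt l1, Nat.mod_eq_of_lt l2] at h2
    have h3 : s(x, y) = s(z, w) := e.injective (Fin.ext h2)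
    exact Sym2.eq_iff.1 h3
  · intro x y z w h
    have l1 := (e s(x, y)).isLt
    have : g x y * m + (e s(x, y)).val < g z w * m + (e s(z, w)).val := by
      have : (g x y + 1) * m ≤ g z w * m := Nat.mul_le_mul_right _ h
      rw [add_mul, one_mul] at this
      omega
    exact Nat.cast_lt.2 this

/-- a criterion for a good labelling -/
theorem good_of_pat {V : Type} [Finite V] {G : SimpleGraph V} (g : V → V → ℕ)
    (hg : ∀ a b, g a b = g b a)
    (h : ∀ (L : ℤ) (w : ℤ → V), IsCyc G L w → Pat L (fun k => g (w k) (w (k + 1)))) :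
    Good G := by
  obtain ⟨f, f1, f2, f3⟩ := exists_refine g hg
  refine ⟨f, f1, fun x y z w _ _ h => f2 x y z w h, twoMax_of_cyc fun L w hw => ?_⟩
  have hp : Pat L (fun k => f (w k) (w (k + 1))) := by
    obtain ⟨a, b, c, d, h1, h2, h3, h4, l1, l2, l3, l4⟩ := h L w hw
    exact ⟨a, b, c, d, h1, h2, h3, h4, f3 _ _ _ _ l1, f3 _ _ _ _ l2, f3 _ _ _ _ l3, f3 _ _ _ _ l4⟩
  refine Pat.two_locmax (x := fun k => f (w k) (w (k + 1))) (fun k => ?_) (fun k hk => ?_) hp
  · simp only [show k + L + 1 = (k + 1) + L by ring, hw.per]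
  · have h3 := hw.three
    rcases f2 _ _ _ _ hk with ⟨a, _⟩ | ⟨a, _⟩
    · exact (hw.adj k).ne a
    · exact hw.inj k (k + 1 + 1) (by omega) (by omega) a

end Pool.Agent.P.MP_f027b3_co
end

-- part Pool.Agent.P.MP_f027b3_co.Graph
section

set_option autoImplicit false
set_option linter.unusedSimpArgs false
set_option linter.unusedSectionVars false

namespace Pool.Agent.P.MP_f027b3_co

open SimpleGraph

abbrev Vx (n : ℕ) := ZMod n × Option Bool

def rel {n : ℕ} : Vx n → Vx n → Prop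
  | (i, none), (j, none) => j = i + 1
  | (i, none), (j, some _) => i = j ∨ i = j + 3
  | (_, some _), _ => False

def Gr (n : ℕ) : SimpleGraph (Vx n) := SimpleGraph.fromRel rel

variable {n : ℕ} [h7 : Fact (7 ≤ n)]

instance : NeZero n := ⟨by have := h7.out; omega⟩

theorem small_ne (k : ℕ) (h0 : 0 < k) (hk : k < 7) : ((k : ℕ) : ZMod n) ≠ 0 := by
  intro h
  rw [ZMod.natCast_eq_zero_iff] at h
  have := Nat.le_of_dvd h0 h
  have := h7.out
  omega

theorem ne1 : (1 : ZMod n) ≠ 0 := by exact_mod_cast small_ne (n := n) 1 (by omega) (by omega)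
theorem ne2 : (2 : ZMod n) ≠ 0 := by exact_mod_cast small_ne (n := n) 2 (by omega) (by omega)
theorem ne3 : (3 : ZMod n) ≠ 0 := by exact_mod_cast small_ne (n := n) 3 (by omega) (by omega)
theorem ne4 : (4 : ZMod n) ≠ 0 := by exact_mod_cast small_ne (n := n) 4 (by omega) (by omega)
theorem ne5 : (5 : ZMod n) ≠ 0 := by exact_mod_cast small_ne (n := n) 5 (by omega) (by omega)
theorem ne6 : (6 : ZMod n) ≠ 0 := by exact_mod_cast small_ne (n := n) 6 (by omega) (by omega)

theorem adj_nn (i j : ZMod n) : (Gr n).Adj (i, none) (j, none) ↔ j = i + 1 ∨ i = j + 1 := by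
  simp only [Gr, fromRel_adj, rel, ne_eq, Prod.mk.injEq, and_true, and_iff_right_iff_imp]
  rintro (h | h) rfl <;> exact ne1 (n := n) (by linear_combination -h)

theorem adj_ns (i j : ZMod n) (b : Bool) :
    (Gr n).Adj (i, none) (j, some b) ↔ i = j ∨ i = j + 3 := by
  simp [Gr, fromRel_adj, rel]

theorem adj_sn (i j : ZMod n) (b : Bool) :
    (Gr n).Adj (j, some b) (i, none) ↔ i = j ∨ i = j + 3 := by
  rw [adj_comm, adj_ns]

theorem adj_ss (i j : ZMod n) (b c : Bool) : ¬ (Gr n).Adj (i, some b) (j, some c) := by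
  simp [Gr, fromRel_adj, rel]

/-- the graph has no good labelling when `n` is odd -/
theorem not_good (hodd : n % 2 = 1) : ¬ Good (Gr n) := by
  rintro ⟨f, hs, hi, hc⟩
  let e : ZMod n → ℝ := fun i => f (i, none) (i + 1, none)
  have hne : ∀ i, e i ≠ e (i + 1) := by
    intro i h
    rcases hi _ _ _ _ ((adj_nn i (i + 1)).2 (Or.inl rfl))
      ((adj_nn (i + 1) (i + 1 + 1)).2 (Or.inl rfl)) h with ⟨a, _⟩ | ⟨a, _⟩
    · exact ne1 (n := n) (by linear_combination -(Prod.mk.inj a).1)
    · exact ne2 (n := n) (by linear_combination -(Prod.mk.inj a).1)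
  have key : ∀ i : ZMod n, (∃ b, f (i, some b) (i, none) < f (i + 1 + 1 + 1, none) (i, some b)) ∧
      ∃ b, f (i, some b) (i + 1 + 1 + 1, none) < f (i, none) (i, some b) := by
    intro i
    have a1 : ∀ b, (Gr n).Adj (i, none) (i, some b) := fun b => (adj_ns _ _ _).2 (Or.inl rfl)
    have a2 : ∀ b, (Gr n).Adj (i + 1 + 1 + 1, none) (i, some b) := fun b =>
      (adj_ns _ _ _).2 (Or.inr (by ring))
    have := four_cycle hc (a1 true) (a2 true).symm (a2 false) (a1 false).symm
      (fun h => ne3 (n := n) (by linear_combination -(Prod.mk.inj h).1)) (by simp)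
    rcases this with ⟨l1, l2⟩ | ⟨l1, l2⟩
    · exact ⟨⟨false, l2⟩, ⟨true, l1⟩⟩
    · refine ⟨⟨true, ?_⟩, ⟨false, ?_⟩⟩
      · rwa [hs (i, some true) (i, none), hs (i + 1 + 1 + 1, none) (i, some true)]
      · rwa [hs (i, some false) (i + 1 + 1 + 1, none), hs (i, none) (i, some false)]
  have alt : ∀ i : ZMod n, e i < e (i + 1) ↔ ¬ e (i + 1) < e (i + 1 + 1) := by
    intro i
    obtain ⟨⟨b, hb⟩, ⟨c, hc'⟩⟩ := key i
    have c1 : (Gr n).Adj (i, none) (i + 1, none) := (adj_nn _ _).2 (Or.inl rfl)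
    have c2 : (Gr n).Adj (i + 1, none) (i + 1 + 1, none) := (adj_nn _ _).2 (Or.inl rfl)
    have c3 : (Gr n).Adj (i + 1 + 1, none) (i + 1 + 1 + 1, none) := (adj_nn _ _).2 (Or.inl rfl)
    have a1 : ∀ b, (Gr n).Adj (i, none) (i, some b) := fun b => (adj_ns _ _ _).2 (Or.inl rfl)
    have a2 : ∀ b, (Gr n).Adj (i + 1 + 1 + 1, none) (i, some b) := fun b =>
      (adj_ns _ _ _).2 (Or.inr (by ring))
    have d1 : ((i, none) : Vx n) ≠ (i + 1 + 1, none) :=
      fun h => ne2 (n := n) (by linear_combination -(Prod.mk.inj h).1)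
    have d2 : ((i, none) : Vx n) ≠ (i + 1 + 1 + 1, none) :=
      fun h => ne3 (n := n) (by linear_combination -(Prod.mk.inj h).1)
    have d3 : ((i + 1, none) : Vx n) ≠ (i + 1 + 1 + 1, none) :=
      fun h => ne2 (n := n) (by linear_combination -(Prod.mk.inj h).1)
    constructor
    · intro l1 l2
      exact five_cycle hc c1 c2 c3 (a2 b) (a1 b).symm d1 d2 d3 (by simp) (by simp) l1 l2 hb
    · intro l2
      by_contra l1
      have l1' : e (i + 1) < e i := lt_of_le_of_ne (not_lt.1 l1) (hne i).symm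
      have l2' : e (i + 1 + 1) < e (i + 1) := lt_of_le_of_ne (not_lt.1 l2) (hne (i + 1)).symm
      refine five_cycle hc c3.symm c2.symm c1.symm (a1 c) (a2 c).symm d3.symm d2.symm d1.symm
        (by simp) (by simp) ?_ ?_ hc'
      · rw [hs _ (i + 1 + 1, none), hs _ (i + 1, none)]; exact l2'
      · rw [hs _ (i + 1, none), hs _ (i, none)]; exact l1'
  have par : ∀ k : ℕ, (e (k : ZMod n) < e ((k : ZMod n) + 1) ↔ (e 0 < e (0 + 1) ↔ k % 2 = 0)) := by
    intro k
    induction k with
    | zero => simp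
    | succ k ih =>
      have := alt (k : ZMod n)
      push_cast
      have h2 : (k + 1) % 2 = 0 ↔ ¬ k % 2 = 0 := by omega
      rw [h2]
      tauto
  have := par n
  rw [ZMod.natCast_self] at this
  have h2 : ¬ n % 2 = 0 := by omega
  tauto

theorem no_isolated (v : Vx n) : ∃ w, (Gr n).Adj v w := by
  obtain ⟨i, _ | b⟩ := v
  · exact ⟨(i + 1, none), (adj_nn _ _).2 (Or.inl rfl)⟩
  · exact ⟨(i, none), (adj_sn _ _ _).2 (Or.inl rfl)⟩

/-- the five edges of the one bad cycle -/
def five (s : ZMod n) (β : Bool) : Set (Sym2 (Vx n)) :=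
  {s((s, some β), (s, none)), s((s, none), (s + 1, none)), s((s + 1, none), (s + 1 + 1, none)),
    s((s + 1 + 1, none), (s + 1 + 1 + 1, none)), s((s + 1 + 1 + 1, none), (s, some β))}

theorem mem_five {x y : Vx n} (h : (Gr n).Adj x y) : ∃ s β, s(x, y) ∈ five s β := by
  obtain ⟨i, _ | b⟩ := x <;> obtain ⟨j, _ | c⟩ := y
  · rcases (adj_nn _ _).1 h with rfl | rfl
    · exact ⟨i, true, by simp [five]⟩
    · exact ⟨j, true, by simp [five]⟩
  · rcases (adj_ns _ _ _).1 h with rfl | rfl
    · exact ⟨i, c, by simp [five]⟩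
    · refine ⟨j, c, ?_⟩
      rw [show j + 3 = j + 1 + 1 + 1 by ring]
      simp [five]
  · rcases (adj_sn _ _ _).1 h with rfl | rfl
    · exact ⟨j, b, by simp [five]⟩
    · refine ⟨i, b, ?_⟩
      rw [show i + 3 = i + 1 + 1 + 1 by ring]
      simp [five]
  · exact (adj_ss _ _ _ _ h).elim

def edgeOf (p : ZMod n × Fin 5) : Sym2 (Vx n) :=
  ![s((p.1, none), (p.1 + 1, none)), s((p.1, none), (p.1, some true)),
    s((p.1, none), (p.1, some false)), s((p.1 + 3, none), (p.1, some true)),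
    s((p.1 + 3, none), (p.1, some false))] p.2

theorem edge_card : (Gr n).edgeSet.ncard ≤ 5 * n := by
  have hsub : (Gr n).edgeSet ⊆ Set.range (edgeOf (n := n)) := by
    intro e he
    induction e using Sym2.ind with
    | h x y =>
      rw [mem_edgeSet] at he
      obtain ⟨i, _ | b⟩ := x <;> obtain ⟨j, _ | c⟩ := y
      · rcases (adj_nn _ _).1 he with rfl | rfl
        · exact ⟨(i, 0), rfl⟩
        · exact ⟨(j, 0), Sym2.eq_swap⟩
      · rcases (adj_ns _ _ _).1 he with rfl | rfl <;> cases c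
        · exact ⟨(i, 2), rfl⟩
        · exact ⟨(i, 1), rfl⟩
        · exact ⟨(j, 4), rfl⟩
        · exact ⟨(j, 3), rfl⟩
      · rcases (adj_sn _ _ _).1 he with rfl | rfl <;> cases b
        · exact ⟨(j, 2), Sym2.eq_swap⟩
        · exact ⟨(j, 1), Sym2.eq_swap⟩
        · exact ⟨(i, 4), Sym2.eq_swap⟩
        · exact ⟨(i, 3), Sym2.eq_swap⟩
      · exact (adj_ss _ _ _ _ he).elim
  refine (Set.ncard_le_ncard hsub (Set.toFinite _)).trans ?_
  rw [← Set.image_univ]
  refine (Set.ncard_image_le (Set.toFinite _)).trans ?_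
  rw [Set.ncard_univ, Nat.card_prod, Nat.card_zmod]
  simp [mul_comm]

theorem card_Vx : Fintype.card (Vx n) = 3 * n := by
  simp [Fintype.card_prod, ZMod.card, mul_comm]

end Pool.Agent.P.MP_f027b3_co
end

-- part Pool.Agent.P.MP_f027b3_co.Label
section

set_option autoImplicit false
set_option linter.unusedSimpArgs false
set_option linter.unusedSectionVars false

namespace Pool.Agent.P.MP_f027b3_co

open SimpleGraph

variable {n : ℕ} [h7 : Fact (7 ≤ n)]

def Qv (t : ℕ) : ℕ := if t = 1 then 2 else if t ≠ 0 ∧ t % 2 = 0 then 3 else 1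

def Pv (s k : ZMod n) : ℕ := Qv (k - s).val

def hd (β : Bool) (j : ZMod n) (b : Bool) : ZMod n := if b = β then j + 3 else j
def tl (β : Bool) (j : ZMod n) (b : Bool) : ZMod n := if b = β then j else j + 3

def hv (s : ZMod n) (β : Bool) : Vx n → Vx n → ℕ
  | (i, none), (j, none) => if j = i + 1 then Pv s i else 0
  | (i, none), (j, some b) => if i = hd β j b then 4 else 0
  | (_, some _), _ => 0

def gv (s : ZMod n) (β : Bool) (x y : Vx n) : ℕ := hv s β x y + hv s β y x

theorem gv_symm (s : ZMod n) (β : Bool) (x y : Vx n) : gv s β x y = gv s β y x := add_comm _ _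

theorem Pv_bd (s k : ZMod n) : 1 ≤ Pv s k ∧ Pv s k ≤ 3 := by
  unfold Pv Qv
  split_ifs <;> omega

theorem val_succ (x : ZMod n) : (x + 1).val = (x.val + 1) % n := by
  have := h7.out
  have : Fact (1 < n) := ⟨by omega⟩
  rw [ZMod.val_add, ZMod.val_one]

theorem Pv_succ (s k : ZMod n) : Pv s (k + 1) = Qv (((k - s).val + 1) % n) := by
  rw [Pv, ← val_succ]; congr 2; ring

theorem Pv_succ2 (s k : ZMod n) : Pv s (k + 1 + 1) = Qv ((((k - s).val + 1) % n + 1) % n) := by
  rw [Pv, ← val_succ, ← val_succ]; congr 2; ring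

theorem mod_cases (t : ℕ) (ht : t < n) :
    ((t + 1) % n = t + 1 ∧ ((t + 1) % n + 1) % n = t + 2 ∧ t + 2 < n) ∨
    ((t + 1) % n = t + 1 ∧ ((t + 1) % n + 1) % n = 0 ∧ t + 2 = n) ∨
    ((t + 1) % n = 0 ∧ ((t + 1) % n + 1) % n = 1 ∧ t + 1 = n) := by
  have := h7.out
  rcases Nat.lt_trichotomy (t + 2) n with h | h | h
  · left
    rw [Nat.mod_eq_of_lt (show t + 1 < n by omega), Nat.mod_eq_of_lt (show t + 1 + 1 < n by omega)]
    omega
  · right; left
    rw [Nat.mod_eq_of_lt (show t + 1 < n by omega), show t + 1 + 1 = n by omega, Nat.mod_self]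
    omega
  · right; right
    rw [show t + 1 = n by omega, Nat.mod_self, Nat.mod_eq_of_lt (show 0 + 1 < n by omega)]
    omega

theorem Pv_asc (hodd : n % 2 = 1) (s k : ZMod n) :
    Pv s k < Pv s (k + 1) ∨ Pv s (k + 1) < Pv s (k + 1 + 1) := by
  rw [Pv_succ, Pv_succ2, Pv]
  have := h7.out
  have ht := ZMod.val_lt (k - s)
  generalize (k - s).val = t at ht
  rcases mod_cases t ht with ⟨h1, h2, h3⟩ | ⟨h1, h2, h3⟩ | ⟨h1, h2, h3⟩ <;> rw [h2, h1] <;>
    unfold Qv <;> split_ifs <;> first | omega | simp_all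

theorem Pv_desc (hodd : n % 2 = 1) (s k : ZMod n) (hk : k ≠ s) :
    Pv s (k + 1) < Pv s k ∨ Pv s (k + 1 + 1) < Pv s (k + 1) := by
  rw [Pv_succ, Pv_succ2, Pv]
  have := h7.out
  have ht := ZMod.val_lt (k - s)
  have ht0 : (k - s).val ≠ 0 := by
    rw [ne_eq, ZMod.val_eq_zero, sub_eq_zero]; exact hk
  generalize (k - s).val = t at ht ht0
  rcases mod_cases t ht with ⟨h1, h2, h3⟩ | ⟨h1, h2, h3⟩ | ⟨h1, h2, h3⟩ <;> rw [h2, h1] <;>
    unfold Qv <;> split_ifs <;> omega

theorem Pv_nat (s : ZMod n) (k : ℕ) (hk : k < 7) : Pv s (s + k) = Qv k := by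
  have := h7.out
  rw [Pv, add_sub_cancel_left, ZMod.val_natCast, Nat.mod_eq_of_lt (by omega)]

theorem gv_fwd (s : ZMod n) (β : Bool) (i : ZMod n) : gv s β (i, none) (i + 1, none) = Pv s i := by
  have : ¬ i = i + 1 + 1 := fun h => ne2 (n := n) (by linear_combination -h)
  simp [gv, hv, this]

theorem gv_hd (s : ZMod n) (β : Bool) (j : ZMod n) (b : Bool) :
    gv s β (hd β j b, none) (j, some b) = 4 := by
  simp [gv, hv]

theorem tl_ne_hd (β : Bool) (j : ZMod n) (b : Bool) : tl β j b ≠ hd β j b := by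
  unfold tl hd
  split_ifs
  · exact fun h => ne3 (n := n) (by linear_combination -h)
  · exact fun h => ne3 (n := n) (by linear_combination h)

theorem gv_tl (s : ZMod n) (β : Bool) (j : ZMod n) (b : Bool) :
    gv s β (tl β j b, none) (j, some b) = 0 := by
  simp [gv, hv, tl_ne_hd]

theorem adj_gad (β : Bool) {j : ZMod n} {b : Bool} {v : Vx n} (h : (Gr n).Adj v (j, some b)) :
    v = (tl β j b, none) ∨ v = (hd β j b, none) := by
  obtain ⟨i, _ | c⟩ := v
  · unfold tl hd
    rcases (adj_ns _ _ _).1 h with rfl | rfl <;> split_ifs <;> simp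
  · exact (adj_ss _ _ _ _ h).elim

theorem hd_tl_inj (β : Bool) {j j' : ZMod n} {b b' : Bool} (h1 : tl β j b = tl β j' b')
    (h2 : hd β j b = hd β j' b') : j = j' ∧ b = b' := by
  unfold tl hd at *
  by_cases hb : b = β <;> by_cases hb' : b' = β <;> simp only [hb, hb', if_true, if_false] at h1 h2
  · exact ⟨h1, hb.trans hb'.symm⟩
  · exact (ne6 (n := n) (by linear_combination h2 - h1)).elim
  · exact (ne6 (n := n) (by linear_combination h1 - h2)).elim
  · refine ⟨h2, ?_⟩
    cases b <;> cases b' <;> cases β <;> simp_all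

section Cyc

variable {L : ℤ} {w : ℤ → Vx n} (s : ZMod n) (β : Bool)

theorem gad_at (hw : IsCyc (Gr n) L w) {i : ℤ} {j : ZMod n} {b : Bool} (h : w i = (j, some b)) :
    (w (i - 1) = (tl β j b, none) ∧ w (i + 1) = (hd β j b, none)) ∨
    (w (i - 1) = (hd β j b, none) ∧ w (i + 1) = (tl β j b, none)) := by
  have h3 := hw.three
  have a1 := hw.adj (i - 1)
  rw [sub_add_cancel, h] at a1
  have a2 := (hw.adj i).symm
  rw [h] at a2
  have hne := hw.inj (i - 1) (i + 1) (by omega) (by omega)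
  rcases adj_gad β a1 with e1 | e1 <;> rcases adj_gad β a2 with e2 | e2
  · exact (hne (e1.trans e2.symm)).elim
  · exact Or.inl ⟨e1, e2⟩
  · exact Or.inr ⟨e1, e2⟩
  · exact (hne (e1.trans e2.symm)).elim

/-- labels along the cycle -/
def xs (s : ZMod n) (β : Bool) (w : ℤ → Vx n) (k : ℤ) : ℕ := gv s β (w k) (w (k + 1))

theorem xs_per (hw : IsCyc (Gr n) L w) (k : ℤ) : xs s β w (k + L) = xs s β w k := by
  simp only [xs, show k + L + 1 = (k + 1) + L by ring, hw.per]

theorem gad_at' (hw : IsCyc (Gr n) L w) {i : ℤ} {j : ZMod n} {b : Bool} (h : w i = (j, some b)) :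
    (w (i - 1) = (tl β j b, none) ∧ w (i + 1) = (hd β j b, none) ∧
      xs s β w (i - 1) = 0 ∧ xs s β w i = 4) ∨
    (w (i - 1) = (hd β j b, none) ∧ w (i + 1) = (tl β j b, none) ∧
      xs s β w (i - 1) = 4 ∧ xs s β w i = 0) := by
  rcases gad_at β hw h with ⟨e1, e2⟩ | ⟨e1, e2⟩
  · refine Or.inl ⟨e1, e2, ?_, ?_⟩
    · rw [xs, sub_add_cancel, e1, h, gv_tl]
    · rw [xs, e2, h, gv_symm, gv_hd]
  · refine Or.inr ⟨e1, e2, ?_, ?_⟩
    · rw [xs, sub_add_cancel, e1, h, gv_hd]
    · rw [xs, e2, h, gv_symm, gv_tl]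

theorem gad_x (hw : IsCyc (Gr n) L w) {i : ℤ} (h : (w i).2 ≠ none) :
    (w (i - 1)).2 = none ∧ (w (i + 1)).2 = none ∧
      ((xs s β w (i - 1) = 0 ∧ xs s β w i = 4) ∨ (xs s β w (i - 1) = 4 ∧ xs s β w i = 0)) := by
  obtain ⟨b, hb⟩ := Option.ne_none_iff_exists'.1 h
  have : w i = ((w i).1, some b) := Prod.ext rfl hb
  rcases gad_at' s β hw this with ⟨e1, e2, e3, e4⟩ | ⟨e1, e2, e3, e4⟩
  · exact ⟨by rw [e1], by rw [e2], Or.inl ⟨e3, e4⟩⟩
  · exact ⟨by rw [e1], by rw [e2], Or.inr ⟨e3, e4⟩⟩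

theorem cyc_step (hw : IsCyc (Gr n) L w) {k : ℤ} (h1 : (w k).2 = none) (h2 : (w (k + 1)).2 = none) :
    w (k + 1) = ((w k).1 + 1, none) ∨ w (k + 1) = ((w k).1 + (-1), none) := by
  have a := hw.adj k
  have e1 : w k = ((w k).1, none) := Prod.ext rfl h1
  have e2 : w (k + 1) = ((w (k + 1)).1, none) := Prod.ext rfl h2
  rw [e1, e2] at a
  rcases (adj_nn _ _).1 a with h | h
  · left; rw [e2, h]
  · right; rw [e2, h]; simp

theorem cyc_x (hw : IsCyc (Gr n) L w) {k : ℤ} (h1 : (w k).2 = none) (h2 : (w (k + 1)).2 = none) :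
    1 ≤ xs s β w k ∧ xs s β w k ≤ 3 := by
  have e1 : w k = ((w k).1, none) := Prod.ext rfl h1
  rcases cyc_step hw h1 h2 with h | h
  · rw [xs, h, e1, gv_fwd]; exact Pv_bd _ _
  · have e3 : w k = (((w k).1 + (-1)) + 1, none) := by rw [e1]; simp
    have e4 : xs s β w k = gv s β ((w k).1 + (-1), none) (((w k).1 + (-1)) + 1, none) := by
      rw [xs, h, gv_symm, ← e3]
    rw [e4, gv_fwd]; exact Pv_bd _ _

theorem next_x (hw : IsCyc (Gr n) L w) {k : ℤ} (h1 : (w k).2 = none) :
    ((w (k + 1)).2 = none ∧ 1 ≤ xs s β w k ∧ xs s β w k ≤ 3) ∨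
    ((w (k + 1)).2 ≠ none ∧ (w (k + 1 + 1)).2 = none ∧
      ((xs s β w k = 0 ∧ xs s β w (k + 1) = 4) ∨ (xs s β w k = 4 ∧ xs s β w (k + 1) = 0))) := by
  by_cases h2 : (w (k + 1)).2 = none
  · exact Or.inl ⟨h2, cyc_x s β hw h1 h2⟩
  · have := gad_x s β hw h2
    rw [add_sub_cancel_right] at this
    exact Or.inr ⟨h2, this.2.1, this.2.2⟩

theorem two_gad_aux (hw : IsCyc (Gr n) L w) {i j : ℤ} (hij : i < j) (hji : j < i + L)
    (hi : (w i).2 ≠ none) (hj : (w j).2 ≠ none)
    (x1 : xs s β w (i - 1) = 4) (x2 : xs s β w i = 0) (x3 : xs s β w (j - 1) = 0)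
    (x4 : xs s β w j = 4) : Pat L (xs s β w) := by
  obtain ⟨i1, i2, -⟩ := gad_x s β hw hi
  obtain ⟨j1, j2, -⟩ := gad_x s β hw hj
  have hij2 : j ≠ i + 1 := by rintro rfl; exact hj i2
  have hji2 : i + L ≠ j + 1 := by
    intro h
    rw [← h, hw.per] at j2
    exact hi j2
  by_cases c1 : j = i + 2
  · by_cases c2 : i + L = j + 2
    · exfalso
      obtain ⟨b, hb⟩ := Option.ne_none_iff_exists'.1 hi
      obtain ⟨c, hc⟩ := Option.ne_none_iff_exists'.1 hj
      have ei : w i = ((w i).1, some b) := Prod.ext rfl hb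
      have ej : w j = ((w j).1, some c) := Prod.ext rfl hc
      rcases gad_at' s β hw ei with ⟨e1, e2, e3, e4⟩ | ⟨e1, e2, e3, e4⟩
      · omega
      rcases gad_at' s β hw ej with ⟨f1, f2, f3, f4⟩ | ⟨f1, f2, f3, f4⟩
      swap
      · omega
      have t1 : w (j - 1) = w (i + 1) := by congr 1; omega
      have t2 : w (j + 1) = w (i - 1) := by
        rw [← hw.per (i - 1)]; congr 1; omega
      rw [f1, e2] at t1
      rw [f2, e1] at t2
      obtain ⟨u1, u2⟩ := hd_tl_inj β (Prod.mk.inj t1).1 (Prod.mk.inj t2).1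
      exact hw.inj i j hij hji (by rw [ei, ej, u1, u2])
    · have p1 : xs s β w (i - 1 + L) = 4 := by rw [xs_per s β hw, x1]
      have p2 : xs s β w (i + L) = 0 := by rw [xs_per s β hw, x2]
      have hiL : (w (i + L)).2 ≠ none := by rwa [hw.per]
      rcases next_x s β hw j2 with ⟨n1, n2, n3⟩ | ⟨n1, n2, n3⟩
      · exact ⟨j, j + 1, i - 1 + L, i + L, by omega, by omega, by omega, by omega, by omega,
          by omega, by omega, by omega⟩
      · have c3 : i + L ≠ j + 1 + 1 + 1 := by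
          intro h
          rw [h] at hiL
          exact hiL n2
        rcases n3 with ⟨n3, n4⟩ | ⟨n3, n4⟩
        · exact ⟨j, j + 1, i - 1 + L, i + L, by omega, by omega, by omega, by omega, by omega,
            by omega, by omega, by omega⟩
        · exact ⟨j, j + 1 + 1, i - 1 + L, i + L, by omega, by omega, by omega, by omega, by omega,
            by omega, by omega, by omega⟩
  · rcases next_x s β hw i2 with ⟨n1, n2, n3⟩ | ⟨n1, n2, n3⟩
    · exact ⟨i - 1, i, i + 1, j - 1, by omega, by omega, by omega, by omega, by omega,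
        by omega, by omega, by omega⟩
    · have c3 : j ≠ i + 1 + 1 + 1 := by
        rintro rfl
        exact hj n2
      rcases n3 with ⟨n3, n4⟩ | ⟨n3, n4⟩
      · exact ⟨i - 1, i, i + 1 + 1, j - 1, by omega, by omega, by omega, by omega, by omega,
          by omega, by omega, by omega⟩
      · exact ⟨i - 1, i, i + 1, j - 1, by omega, by omega, by omega, by omega, by omega,
          by omega, by omega, by omega⟩

theorem two_gad (hw : IsCyc (Gr n) L w) {i j : ℤ} (hij : i < j) (hji : j < i + L)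
    (hi : (w i).2 ≠ none) (hj : (w j).2 ≠ none) : Pat L (xs s β w) := by
  obtain ⟨i1, i2, i3⟩ := gad_x s β hw hi
  obtain ⟨j1, j2, j3⟩ := gad_x s β hw hj
  have hij2 : j ≠ i + 1 := by rintro rfl; exact hj i2
  have hji2 : i + L ≠ j + 1 := by
    intro h
    rw [← h, hw.per] at j2
    exact hi j2
  rcases i3 with ⟨x1, x2⟩ | ⟨x1, x2⟩ <;> rcases j3 with ⟨x3, x4⟩ | ⟨x3, x4⟩
  · exact Pat.of_low (xs_per s β hw) (i - 1) i (j - 1) j (by omega) (by omega) (by omega)
      (by omega) (by omega) (by omega) (by omega) (by omega)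
  · refine two_gad_aux s β hw hji (by omega) hj (by rwa [hw.per]) x3 x4 ?_ ?_
    · rw [show i + L - 1 = i - 1 + L by ring, xs_per s β hw, x1]
    · rw [xs_per s β hw, x2]
  · exact two_gad_aux s β hw hij hji hi hj x1 x2 x3 x4
  · exact ⟨i - 1, i, j - 1, j, by omega, by omega, by omega, by omega, by omega,
      by omega, by omega, by omega⟩

theorem run (hw : IsCyc (Gr n) L w) (p : ℤ) (ε : ZMod n) (hε : ε = 1 ∨ ε = -1) (N : ℕ)
    (h : ∀ k : ℕ, k ≤ N + 1 → (w (p + k)).2 = none) (h1 : w (p + 1) = ((w p).1 + ε, none)) :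
    ∀ k : ℕ, k ≤ N + 1 → w (p + k) = ((w p).1 + k * ε, none) := by
  have h3 := hw.three
  have key : ∀ k : ℕ, k ≤ N → w (p + k) = ((w p).1 + k * ε, none) ∧
      w (p + k + 1) = ((w p).1 + (k + 1) * ε, none) := by
    intro k
    induction k with
    | zero =>
      intro _
      have := h 0 (by omega)
      simp only [Nat.cast_zero, add_zero, zero_mul, zero_add, one_mul] at this ⊢
      exact ⟨Prod.ext rfl this, h1⟩
    | succ k ih =>
      intro hk
      obtain ⟨i1, i2⟩ := ih (by omega)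
      have q1 := h (k + 1) (by omega)
      have q2 := h (k + 2) (by omega)
      push_cast at q1 q2 ⊢
      rw [← add_assoc] at q1 ⊢
      rw [show p + ((k : ℤ) + 2) = p + k + 1 + 1 by ring] at q2
      refine ⟨i2, ?_⟩
      have hne := hw.inj (p + k) (p + k + 1 + 1) (by omega) (by omega)
      rcases cyc_step hw q1 q2 with e | e <;> rw [i2] at e <;> rcases hε with rfl | rfl
      · rw [e]; congr 1; ring
      · exact (hne (by rw [i1, e]; congr 1; ring)).elim
      · exact (hne (by rw [i1, e]; congr 1; ring)).elim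
      · rw [e]; congr 1; ring
  intro k hk
  rcases Nat.eq_zero_or_pos k with rfl | hpos
  · exact (key 0 (by omega)).1
  · obtain ⟨k, rfl⟩ : ∃ k', k = k' + 1 := ⟨k - 1, by omega⟩
    have := (key k (by omega)).2
    push_cast
    rwa [← add_assoc]

theorem one_gad_fwd (hodd : n % 2 = 1) (hw : IsCyc (Gr n) L w) {i : ℤ} (hi : (w i).2 ≠ none)
    (hno : ∀ k, i < k → k < i + L → (w k).2 = none)
    (h1 : w (i + 1 + 1) = ((w (i + 1)).1 + 1, none))
    {E : Sym2 (Vx n)} (hE : E ∈ five s β) (hav : ∀ k, s(w k, w (k + 1)) ≠ E) :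
    Pat L (xs s β w) := by
  have h3 := hw.three
  obtain ⟨N, rfl⟩ : ∃ N : ℕ, L = N + 3 := ⟨(L - 3).toNat, by omega⟩
  have hr := run hw (i + 1) 1 (Or.inl rfl) N (fun k hk => hno _ (by omega) (by omega)) h1
  simp only [mul_one] at hr
  set u := (w (i + 1)).1 with hu
  have hx : ∀ k : ℕ, k ≤ N → xs s β w (i + 1 + k) = Pv s (u + k) := by
    intro k hk
    have a1 := hr k (by omega)
    have a2 := hr (k + 1) (by omega)
    push_cast at a2
    rw [xs, a1, add_assoc (i + 1), a2, ← add_assoc, gv_fwd]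
  obtain ⟨b, hb⟩ := Option.ne_none_iff_exists'.1 hi
  have ei : w i = ((w i).1, some b) := Prod.ext rfl hb
  set j := (w i).1 with hj
  have hend : w (i - 1) = (u + (N + 1), none) := by
    have := hr (N + 1) le_rfl
    push_cast at this
    rw [← this, ← hw.per (i - 1)]; congr 1; ring
  have hbeg : w (i + 1) = (u, none) := by simpa using hr 0 (by omega)
  have hN : 2 ≤ N := by
    by_contra hlt
    have hN' : N = 0 ∨ N = 1 := by omega
    rcases gad_at β hw ei with ⟨e1, e2⟩ | ⟨e1, e2⟩ <;> rw [hend] at e1 <;> rw [hbeg] at e2 <;>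
      have f1 := (Prod.mk.inj e1).1 <;> have f2 := (Prod.mk.inj e2).1 <;>
      simp only [tl, hd] at f1 f2 <;> split_ifs at f1 f2 <;> rcases hN' with rfl | rfl <;>
      push_cast at f1 <;>
      first
        | exact ne1 (n := n) (by linear_combination f2 - f1)
        | exact ne2 (n := n) (by linear_combination f2 - f1)
        | exact ne4 (n := n) (by linear_combination f1 - f2)
        | exact ne5 (n := n) (by linear_combination f1 - f2)
  have y0 := hx 0 (by omega)
  have y1 := hx 1 (by omega)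
  have y2 := hx 2 (by omega)
  simp only [Nat.cast_zero, add_zero, Nat.cast_one, Nat.cast_ofNat] at y0 y1 y2
  rw [show u + 2 = u + 1 + 1 by ring] at y2
  have b0 := Pv_bd s u
  have b1 := Pv_bd s (u + 1)
  have b2 := Pv_bd s (u + 1 + 1)
  rcases gad_at' s β hw ei with ⟨e1, e2, e3, e4⟩ | ⟨e1, e2, e3, e4⟩
  · have p1 : xs s β w (i - 1 + (N + 3)) = 0 := by rw [xs_per s β hw, e3]
    rcases Pv_asc hodd s u with a | a
    · exact ⟨i, i + 1, i + 1 + 1, i - 1 + (N + 3), by omega, by omega, by omega, by omega,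
        by omega, by omega, by omega, by omega⟩
    · exact ⟨i, i + 1 + 1, i + 1 + 2, i - 1 + (N + 3), by omega, by omega, by omega, by omega,
        by omega, by omega, by omega, by omega⟩
  · have p1 : xs s β w (i - 1 + (N + 3)) = 4 := by rw [xs_per s β hw, e3]
    by_cases hus : u = s
    · by_cases hN2 : N = 2
      · exfalso
        subst hN2
        rw [hend] at e1
        rw [hbeg] at e2
        have f1 := (Prod.mk.inj e1).1
        have f2 := (Prod.mk.inj e2).1
        obtain ⟨g1, g2⟩ := hd_tl_inj β (j := j) (j' := s) (b := b) (b' := β)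
          (by rw [← f2, hus]; simp [tl]) (by rw [← f1, hus]; simp [hd]; ring)
        have w0 : w i = (s, some β) := by rw [ei, g1, g2]
        have w1 : w (i + 1) = (s, none) := by rw [hbeg, hus]
        have w2 : w (i + 1 + 1) = (s + 1, none) := by rw [h1, hus]
        have w3 : w (i + 1 + 1 + 1) = (s + 1 + 1, none) := by
          have := hr 2 (by omega)
          push_cast at this
          rw [show i + 1 + 1 + 1 = i + 1 + 2 by ring, this, hus]; congr 1; ring
        have w4 : w (i + 1 + 1 + 1 + 1) = (s + 1 + 1 + 1, none) := by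
          have := hr 3 (by omega)
          push_cast at this
          rw [show i + 1 + 1 + 1 + 1 = i + 1 + 3 by ring, this, hus]; congr 1; ring
        have w5 : w (i + 1 + 1 + 1 + 1 + 1) = (s, some β) := by
          rw [← w0, ← hw.per i]; congr 1; push_cast; ring
        simp only [five, Set.mem_insert_iff, Set.mem_singleton_iff] at hE
        rcases hE with rfl | rfl | rfl | rfl | rfl
        · exact hav i (by rw [w0, w1])
        · exact hav (i + 1) (by rw [w1, w2])
        · exact hav (i + 1 + 1) (by rw [w2, w3])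
        · exact hav (i + 1 + 1 + 1) (by rw [w3, w4])
        · exact hav (i + 1 + 1 + 1 + 1) (by rw [w4, w5])
      · have y3 := hx 3 (by omega)
        simp only [Nat.cast_ofNat] at y3
        rw [show u + 3 = u + 1 + 1 + 1 by ring] at y3
        have b3 := Pv_bd s (u + 1 + 1 + 1)
        have hne : u + 1 ≠ s := fun h => ne1 (n := n) (by linear_combination h - hus)
        rcases Pv_desc hodd s (u + 1) hne with a | a
        · exact Pat.of_low (xs_per s β hw) i (i + 1 + 1) (i + 1 + 2) (i - 1 + (N + 3)) (by omega)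
            (by omega) (by omega) (by omega) (by omega) (by omega) (by omega) (by omega)
        · exact Pat.of_low (xs_per s β hw) i (i + 1 + 2) (i + 1 + 3) (i - 1 + (N + 3)) (by omega)
            (by omega) (by omega) (by omega) (by omega) (by omega) (by omega) (by omega)
    · rcases Pv_desc hodd s u hus with a | a
      · exact Pat.of_low (xs_per s β hw) i (i + 1) (i + 1 + 1) (i - 1 + (N + 3)) (by omega)
          (by omega) (by omega) (by omega) (by omega) (by omega) (by omega) (by omega)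
      · exact Pat.of_low (xs_per s β hw) i (i + 1 + 1) (i + 1 + 2) (i - 1 + (N + 3)) (by omega)
          (by omega) (by omega) (by omega) (by omega) (by omega) (by omega) (by omega)

theorem xs_rev (w : ℤ → Vx n) : xs s β (fun k => w (-k)) = fun k => xs s β w (-k - 1) := by
  funext k
  simp only [xs]
  rw [gv_symm, sub_add_cancel, show -(k + 1) = -k - 1 by ring]

theorem one_gad (hodd : n % 2 = 1) (hw : IsCyc (Gr n) L w) {i : ℤ} (hi : (w i).2 ≠ none)
    (hno : ∀ k, i < k → k < i + L → (w k).2 = none)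
    {E : Sym2 (Vx n)} (hE : E ∈ five s β) (hav : ∀ k, s(w k, w (k + 1)) ≠ E) :
    Pat L (xs s β w) := by
  have h3 := hw.three
  rcases cyc_step hw (hno (i + 1) (by omega) (by omega)) (hno (i + 1 + 1) (by omega) (by omega))
    with h1 | h1
  · exact one_gad_fwd s β hodd hw hi hno h1 hE hav
  · refine Pat.of_rev (xs_per s β hw) ?_
    rw [← xs_rev]
    obtain ⟨N, rfl⟩ : ∃ N : ℕ, L = N + 3 := ⟨(L - 3).toNat, by omega⟩
    have hr := run hw (i + 1) (-1) (Or.inr rfl) N (fun k hk => hno _ (by omega) (by omega)) h1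
    refine one_gad_fwd s β hodd hw.rev (i := -(i + (N + 3))) ?_ ?_ ?_ hE ?_
    · simpa only [neg_neg, hw.per] using hi
    · intro k k1 k2
      exact hno _ (by omega) (by omega)
    · have a1 := hr N (by omega)
      have a2 := hr (N + 1) (by omega)
      push_cast at a2
      rw [show -(-(i + ((N : ℤ) + 3)) + 1 + 1) = i + 1 + N by ring,
        show -(-(i + ((N : ℤ) + 3)) + 1) = i + 1 + (N + 1) by ring, a1, a2]
      congr 1; ring
    · intro k
      have := hav (-(k + 1))
      rw [show -(k + 1) + 1 = -k by ring, Sym2.eq_swap] at this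
      exact this

theorem no_gad_fwd (hw : IsCyc (Gr n) L w) (hno : ∀ k, (w k).2 = none)
    (h1 : w (0 + 1) = ((w 0).1 + 1, none)) : Pat L (xs s β w) := by
  have h3 := hw.three
  have h7' := h7.out
  have hr : ∀ k : ℕ, w k = ((w 0).1 + k, none) := fun k => by
    simpa using run hw 0 1 (Or.inl rfl) k (fun k _ => hno _) h1 k (by omega)
  set u := (w 0).1 with hu
  have hx : ∀ k : ℕ, xs s β w k = Pv s (u + k) := by
    intro k
    have a2 := hr (k + 1)
    push_cast at a2
    rw [xs, hr k, a2, ← add_assoc, gv_fwd]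
  have hL : 7 ≤ L := by
    obtain ⟨N, rfl⟩ : ∃ N : ℕ, L = N := ⟨L.toNat, by omega⟩
    by_contra hlt
    have a := hw.per 0
    rw [zero_add, hr N] at a
    have := congrArg Prod.fst a
    exact small_ne (n := n) N (by omega) (by omega) (by linear_combination this)
  set k0 := (s - u).val with hk0
  have hy : ∀ k : ℕ, k < 7 → xs s β w ((k0 : ℤ) + k) = Qv k := by
    intro k hk
    have := hx (k0 + k)
    push_cast at this
    rw [this, hk0, ZMod.natCast_zmod_val, ← Pv_nat s k hk]
    congr 1; ring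
  have y2 := hy 2 (by omega)
  have y3 := hy 3 (by omega)
  have y4 := hy 4 (by omega)
  have y5 := hy 5 (by omega)
  simp only [Qv, Nat.cast_ofNat] at y2 y3 y4 y5
  norm_num at y2 y3 y4 y5
  exact ⟨k0 + 2, k0 + 3, k0 + 4, k0 + 5, by omega, by omega, by omega, by omega,
    by omega, by omega, by omega, by omega⟩

theorem no_gad (hw : IsCyc (Gr n) L w) (hno : ∀ k, (w k).2 = none) : Pat L (xs s β w) := by
  have h3 := hw.three
  rcases cyc_step hw (hno 0) (hno (0 + 1)) with h1 | h1
  · exact no_gad_fwd s β hw hno h1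
  · refine Pat.of_rev (xs_per s β hw) ?_
    rw [← xs_rev]
    refine no_gad_fwd s β hw.rev (fun k => hno _) ?_
    have a := hw.adj (-1)
    rcases cyc_step hw.rev (k := 0) (hno _) (hno _) with h2 | h2
    · exact h2
    · exfalso
      simp only [zero_add, neg_zero] at h1 h2
      exact hw.inj (-1) 1 (by omega) (by omega) (by rw [h1, h2])

theorem all_pat (hodd : n % 2 = 1) (hw : IsCyc (Gr n) L w)
    {E : Sym2 (Vx n)} (hE : E ∈ five s β) (hav : ∀ k, s(w k, w (k + 1)) ≠ E) :
    Pat L (xs s β w) := by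
  by_cases h0 : ∀ k, (w k).2 = none
  · exact no_gad s β hw h0
  push Not at h0
  obtain ⟨i, hi⟩ := h0
  by_cases h1 : ∀ k, i < k → k < i + L → (w k).2 = none
  · exact one_gad s β hodd hw hi h1 hE hav
  push Not at h1
  obtain ⟨j, j1, j2, hj⟩ := h1
  exact two_gad s β hw j1 j2 hi hj

end Cyc

/-- deleting any edge gives a graph with a good labelling -/
theorem good_delete (hodd : n % 2 = 1) {x y : Vx n} (h : (Gr n).Adj x y) :
    Good ((Gr n).deleteEdges {s(x, y)}) := by
  obtain ⟨s, β, hE⟩ := mem_five h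
  refine good_of_pat (gv s β) (gv_symm s β) fun L w hw => ?_
  have hw' : IsCyc (Gr n) L w :=
    ⟨hw.three, fun k => (deleteEdges_adj.1 (hw.adj k)).1, hw.per, hw.inj⟩
  exact all_pat s β hodd hw' hE fun k => (deleteEdges_adj.1 (hw.adj k)).2

end Pool.Agent.P.MP_f027b3_co
end

-- part Pool.Agent.P.MP_f027b3_co.Main
section

set_option autoImplicit false

namespace Pool.Agent.P.MP_f027b3_co

open SimpleGraph

theorem family (N : ℕ) : ∃ (m : ℕ) (G : SimpleGraph (Fin m)), N < m ∧
    (∀ v, ∃ w, G.Adj v w) ∧ ¬ Good G ∧ (∀ H : SimpleGraph (Fin m), H < G → Good H) ∧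
    2 * (G.edgeSet.ncard : ℝ) < 7 / 2 * (m : ℝ) := by
  set n := 2 * N + 7 with hn
  have h7 : Fact (7 ≤ n) := ⟨by omega⟩
  have hodd : n % 2 = 1 := by omega
  let e : Fin (3 * n) ≃ Vx n := (Fintype.equivFinOfCardEq (card_Vx (n := n))).symm
  let G : SimpleGraph (Fin (3 * n)) := (Gr n).comap e
  have iso : G ≃g Gr n := Iso.comap e (Gr n)
  refine ⟨3 * n, G, by omega, ?_, ?_, ?_, ?_⟩
  · intro v
    obtain ⟨w, hw⟩ := no_isolated (e v)
    exact ⟨e.symm w, by simpa [G] using hw⟩
  · intro h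
    exact not_good hodd (Good.of_hom iso.symm.toHom iso.symm.injective h)
  · intro H hH
    obtain ⟨a, b, hab, hnot⟩ : ∃ a b, G.Adj a b ∧ ¬ H.Adj a b := by
      by_contra hc
      push Not at hc
      exact hH.not_ge fun a b h => hc a b h
    have hg := good_delete hodd (x := e a) (y := e b) hab
    refine Good.of_hom (G := (Gr n).deleteEdges {s(e a, e b)}) ⟨e, ?_⟩ e.injective hg
    intro x y hxy
    rw [deleteEdges_adj]
    refine ⟨hH.le hxy, fun h => hnot ?_⟩
    rcases Sym2.eq_iff.1 (Set.mem_singleton_iff.1 h) with ⟨h1, h2⟩ | ⟨h1, h2⟩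
    · rw [← e.injective h1, ← e.injective h2]; exact hxy
    · rw [← e.injective h1, ← e.injective h2]; exact hxy.symm
  · have h1 : G.edgeSet.ncard = (Gr n).edgeSet.ncard := by
      rw [← Nat.card_coe_set_eq, ← Nat.card_coe_set_eq]
      exact Nat.card_congr iso.mapEdgeSet
    have h2 : ((Gr n).edgeSet.ncard : ℝ) ≤ 5 * n := by exact_mod_cast edge_card (n := n)
    have h3 : (7 : ℝ) ≤ n := by exact_mod_cast h7.out
    rw [h1]
    push_cast
    linarith

end Pool.Agent.P.MP_f027b3_co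
end
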